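import Pool.Agent.H343S.Top1
import Pool.Agent.H343S.Top2b
import Pool.Agent.H343S.Top3

/-!
# The star-building game on the complete graph: Player 2 wins for at least three quarters of all `n`

`Pool.Agent.H343S.win W k t F A`: `k` moves are left, `F` is the set of the free edges, `A` the set of the
edges of Player 1, `t = true` if Player 1 is to move, and Player 2 can force that the final set of the edges
of Player 1 satisfies `W`.  `Ed n` is the edge set of the complete graph on `Fin n`, `Out n X` says that the
maximum degree of `X` is at most that of `Ed n \ X`, and `P2wins n` is `win (Out n) (Ed n).card true (Ed n) ∅`,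
i.e. `Star(n)` is a Player 2 win.

If `Star(n)` is a Player 1 win then `Star(n+1)` and `Star(n+2)` are Player 2 wins, and so is `Star(n+3)` if `n`
is even.  So at most one of `Star(m)`, `Star(m+1)`, `Star(m+2)`, `Star(m+3)` is a Player 1 win if `m` is even.
-/

set_option autoImplicit false

namespace Pool.Agent.Results.MP_cba86f_co.ThreeQuarters

open Finset Pool.Agent.H343S

lemma bool4 : ∀ b0 b1 b2 b3 : Bool,
    (b0 || b1) = true → (b1 || b2) = true → (b2 || b3) = true → (b0 || b2) = true → (b1 || b3) = true →
    (b0 || b3) = true → 3 ≤ b0.toNat + b1.toNat + b2.toNat + b3.toNat := by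
  decide

open Classical in
lemma window (m : ℕ) (hm : 11 ≤ m) (he : Even m) : 3 ≤ ((Ico m (m + 4)).filter P2wins).card := by
  have h1 : ∀ i, P2wins (m + i) ∨ P2wins (m + i + 1) := fun i => by
    by_cases h : P2wins (m + i)
    · exact Or.inl h
    · exact Or.inr (offset1 h (by omega))
  have h2 : ∀ i, P2wins (m + i) ∨ P2wins (m + i + 2) := fun i => by
    by_cases h : P2wins (m + i)
    · exact Or.inl h
    · exact Or.inr (offset2 h (by omega))
  have h3 : P2wins (m + 0) ∨ P2wins (m + 3) := by
    by_cases h : P2wins m
    · exact Or.inl h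
    · exact Or.inr (offset3 h he hm)
  have hcard : ((Ico m (m + 4)).filter P2wins).card =
      (decide (P2wins (m + 0))).toNat + (decide (P2wins (m + 1))).toNat + (decide (P2wins (m + 2))).toNat +
      (decide (P2wins (m + 3))).toNat := by
    rw [card_filter, sum_Ico_eq_sum_range]
    have : m + 4 - m = 4 := by omega
    rw [this]
    simp only [sum_range_succ, sum_range_zero, zero_add]
    have aux : ∀ p : Prop, (if p then 1 else 0) = (decide p).toNat := by
      intro p
      by_cases hp : p <;> simp [hp]
    simp only [aux]
  rw [hcard]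
  have c1 : ∀ i j, j = i + 1 → (decide (P2wins (m + i)) || decide (P2wins (m + j))) = true := by
    rintro i j rfl
    simpa [add_assoc] using h1 i
  have c2 : ∀ i j, j = i + 2 → (decide (P2wins (m + i)) || decide (P2wins (m + j))) = true := by
    rintro i j rfl
    simpa [add_assoc] using h2 i
  exact bool4 _ _ _ _ (c1 0 1 rfl) (c1 1 2 rfl) (c1 2 3 rfl) (c2 0 2 rfl) (c2 1 3 rfl)
    (by simpa using h3)

open Classical in
lemma blocks (k : ℕ) : 3 * k ≤ ((range (12 + 4 * k)).filter P2wins).card := by
  induction k with
  | zero => omega
  | succ k ih =>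
    have h1 := window (12 + 4 * k) (by omega) ⟨6 + 2 * k, by omega⟩
    have h2 : (range (12 + 4 * (k + 1))).filter P2wins =
        (range (12 + 4 * k)).filter P2wins ∪ (Ico (12 + 4 * k) (12 + 4 * k + 4)).filter P2wins := by
      rw [← filter_union]
      congr 1
      ext x
      simp only [mem_range, mem_union, mem_Ico]
      omega
    rw [h2, card_union_of_disjoint]
    · omega
    · rw [disjoint_left]
      intro x hx hx'
      rw [mem_filter, mem_range] at hx
      rw [mem_filter, mem_Ico] at hx'
      omega

open Classical in
/-- (1), (2) If `Star(n)` is a Player 1 win, then `Star(n+1)` (`n ≥ 5`) and `Star(n+2)` (`n ≥ 3`) are Player 2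
wins; (3) if moreover `n ≥ 11` is even then `Star(n+3)` is a Player 2 win; (4) if `m ≥ 11` is even, then at least
three of `Star(m), …, Star(m+3)` are Player 2 wins; (5) the number of `n < N` for which `Star(n)` is a Player 2
win is at least `(3 N - 45) / 4`, so the lower density of these `n` is at least `3/4`. -/
theorem result :
    (∀ n, 5 ≤ n → ¬ P2wins n → P2wins (n + 1)) ∧
    (∀ n, 3 ≤ n → ¬ P2wins n → P2wins (n + 2)) ∧
    (∀ n, 11 ≤ n → Even n → ¬ P2wins n → P2wins (n + 3)) ∧
    (∀ m, 11 ≤ m → Even m → 3 ≤ ((Ico m (m + 4)).filter P2wins).card) ∧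
    (∀ N, 3 * N ≤ 4 * ((range N).filter P2wins).card + 45) := by
  refine ⟨fun n h hn => offset1 hn h, fun n h hn => offset2 hn h, fun n h he hn => offset3 hn he h,
    window, fun N => ?_⟩
  by_cases hN : N < 12
  · omega
  · have h1 := blocks ((N - 12) / 4)
    have h2 : ((range (12 + 4 * ((N - 12) / 4))).filter P2wins).card ≤ ((range N).filter P2wins).card := by
      apply card_le_card
      apply filter_subset_filter
      intro x hx
      rw [mem_range] at hx ⊢
      omega
    omega

end Pool.Agent.Results.MP_cba86f_co.ThreeQuarters
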